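import Mathlib
import Pool.Agent.Q151.Fill.Countable
import Pool.Agent.Q151.Plank.Machine
import Pool.Agent.Q151.Plank.Finite

/-!
# Factors of a product under a subspace filling its subproducts: the full answer
-/

open Set Filter Topology

universe u v

namespace Pool.Agent.Results.MP_9641f2_gt.FullAnswer

open Pool.Agent.Q151.Fill (FillsCountable)
open Pool.Agent.Q151.Plank (FillsFinite)

open Pool.Agent.Q151.Plank in
theorem finite_part : ∃ (X : ℕ → Type) (_ : ∀ i, TopologicalSpace (X i)) (D : Set (∀ i, X i)),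
    (∀ i, T1Space (X i)) ∧ FillsFinite D ∧ ParacompactSpace D ∧ T2Space D ∧
      ¬ ParacompactSpace (X 0) ∧ ¬ NormalSpace (X 0) := by
  have h1 := t1_XN
  have h2 := reg_XN
  have h3 : T1Space (XN 0) := t1_XN 0
  have h4 : RegularSpace (XN 0) := reg_XN 0
  have h5 : ¬ NormalSpace (XN 0) := Z.not_normal
  refine ⟨XN, inferInstance, DF, t1_XN, fills_DF, paracompact_DF, inferInstance, ?_, h5⟩
  intro hp
  exact h5 inferInstance

open Pool.Agent.Q151.Plank in
theorem normal_part : ∃ (I : Type) (X : I → Type) (_ : ∀ i, TopologicalSpace (X i))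
    (D : Set (∀ i, X i)), (∀ i, T1Space (X i)) ∧ FillsCountable D ∧ T1Space D ∧ NormalSpace D ∧
      ∃ i, ¬ NormalSpace (X i) := by
  have h1 := t1_XO Z
  have h2 := normal_DN
  exact ⟨Option Pool.Agent.Q151.Plank.I, XO Z, inferInstance, (homeo Z) ⁻¹' DN, t1_XO Z,
    fills_of fun z J hJ r => fills_DN z hJ r, inferInstance, normal_transfer DN, none, Z.not_normal⟩

open Pool.Agent.Q151.Plank in
theorem cr_part : ∃ (I : Type) (X : I → Type) (_ : ∀ i, TopologicalSpace (X i))
    (D : Set (∀ i, X i)), (∀ i, T1Space (X i)) ∧ FillsCountable D ∧ T1Space D ∧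
      CompletelyRegularSpace D ∧ ∃ i, ¬ CompletelyRegularSpace (X i) := by
  have h1 := t1_XO M
  have h2 := cr_DM
  refine ⟨Option Pool.Agent.Q151.Plank.I, XO M, inferInstance, (homeo M) ⁻¹' DM, t1_XO M,
    fills_of fun z J hJ r => fills_DM z hJ r, inferInstance, ?_, none, M.not_cr⟩
  exact ((homeo M).sets (s := (homeo M) ⁻¹' DM) (t := DM) rfl).isInducing.completelyRegularSpace

/-- The full answer. (1) A paracompact subspace that fills the countable subproducts has only
paracompact factors (and is the whole product). (2) This fails for finite subproducts. (3), (4):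
a normal (completely regular) subspace that fills the countable subproducts need not have normal
(completely regular) factors. -/
theorem result :
    (∀ (I : Type u) (X : I → Type v) [∀ i, TopologicalSpace (X i)] (D : Set (∀ i, X i)),
      (∀ i, T1Space (X i)) → FillsCountable D → ParacompactSpace D → T2Space D →
        (∀ i, ParacompactSpace (X i) ∧ T2Space (X i)) ∧ (D.Nonempty → D = Set.univ)) ∧
    (∃ (X : ℕ → Type) (_ : ∀ i, TopologicalSpace (X i)) (D : Set (∀ i, X i)),
      (∀ i, T1Space (X i)) ∧ FillsFinite D ∧ ParacompactSpace D ∧ T2Space D ∧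
        ¬ ParacompactSpace (X 0) ∧ ¬ NormalSpace (X 0)) ∧
    (∃ (I : Type) (X : I → Type) (_ : ∀ i, TopologicalSpace (X i)) (D : Set (∀ i, X i)),
      (∀ i, T1Space (X i)) ∧ FillsCountable D ∧ T1Space D ∧ NormalSpace D ∧
        ∃ i, ¬ NormalSpace (X i)) ∧
    (∃ (I : Type) (X : I → Type) (_ : ∀ i, TopologicalSpace (X i)) (D : Set (∀ i, X i)),
      (∀ i, T1Space (X i)) ∧ FillsCountable D ∧ T1Space D ∧ CompletelyRegularSpace D ∧
        ∃ i, ¬ CompletelyRegularSpace (X i)) := by
  refine ⟨fun I X _ D hT hD hp h2 => ?_, finite_part, normal_part, cr_part⟩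
  obtain ⟨h3, h4, -⟩ := Pool.Agent.Q151.Fill.countable_paracompact hT D hD hp h2
  exact ⟨h3, h4⟩

end Pool.Agent.Results.MP_9641f2_gt.FullAnswer
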